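import Pool.Agent.Helper67.DF.Stmts

/-!
Project DF (MP_10bc19_gt), module COL: comparison with the exponential distribution in the
convex order.
-/

open MeasureTheory Set

namespace Pool.Agent.Helper55.DF

/-- three-point form of convexity -/
theorem cv {φ : ℝ → ℝ} (h : ConvexOn ℝ (Ioi 0) φ) {x y z : ℝ} (hx : 0 < x) (hxy : x < y)
    (hyz : y < z) : (z - x) * φ y ≤ (z - y) * φ x + (y - x) * φ z := by
  have h1 := h.slope_mono_adjacent (x := x) (y := y) (z := z) hx (hx.trans (hxy.trans hyz)) hxy hyz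
  rw [div_le_div_iff₀ (by linarith) (by linarith)] at h1
  nlinarith [h1]

theorem ae_zero {d : ℝ → ℝ} (hd : IntegrableOn d (Ioi 0)) (h0 : ∫ t in Ioi (0 : ℝ), d t = 0)
    (h : ∀ᵐ t ∂(volume.restrict (Ioi (0 : ℝ))), d t ≤ 0) :
    ∀ᵐ t ∂(volume.restrict (Ioi (0 : ℝ))), d t = 0 := by
  have h1 : ∫ t in Ioi (0 : ℝ), -d t = 0 := by rw [integral_neg, h0, neg_zero]
  have h2 := (setIntegral_eq_zero_iff_of_nonneg_ae (μ := volume) (s := Ioi (0 : ℝ))
    (f := fun t => -d t) (by filter_upwards [h] with t ht; simpa using ht) hd.neg).1 h1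
  filter_upwards [h2] with t ht
  simpa using ht

theorem ae_ne (t0 : ℝ) : ∀ᵐ t ∂(volume.restrict (Ioi (0 : ℝ))), t ≠ t0 :=
  ae_restrict_of_ae (compl_mem_ae_iff.2 (measure_singleton t0))

theorem ae_zero_up {s d : ℝ → ℝ} (hs : StrictMonoOn s (Ioi 0)) (hd : IntegrableOn d (Ioi 0))
    (hsd : IntegrableOn (fun t => s t * d t) (Ioi 0)) (h0 : ∫ t in Ioi (0 : ℝ), d t = 0)
    (h1 : ∫ t in Ioi (0 : ℝ), s t * d t = 0) {t0 : ℝ} (ht0 : 0 < t0)
    (hf : ∀ t, 0 < t → 0 ≤ (s t - s t0) * d t) :
    ∀ᵐ t ∂(volume.restrict (Ioi (0 : ℝ))), d t = 0 := by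
  have e1 : (fun t => (s t - s t0) * d t) = fun t => s t * d t - s t0 * d t := by
    funext t; ring
  have hi : IntegrableOn (fun t => (s t - s t0) * d t) (Ioi 0) := by
    rw [e1]; exact hsd.sub (hd.const_mul _)
  have h2 : ∫ t in Ioi (0 : ℝ), (s t - s t0) * d t = 0 := by
    rw [e1, integral_sub hsd (hd.const_mul _), integral_const_mul, h0, h1]; simp
  have h3 := (setIntegral_eq_zero_iff_of_nonneg_ae (μ := volume) (s := Ioi (0 : ℝ))
    (f := fun t => (s t - s t0) * d t)
    (by
      filter_upwards [ae_restrict_mem measurableSet_Ioi] with t ht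
      exact hf t ht) hi).1 h2
  filter_upwards [h3, ae_ne t0, ae_restrict_mem measurableSet_Ioi] with t h4 h5 h6
  have h7 : s t - s t0 ≠ 0 := by
    intro h8
    have h9 : s t = s t0 := by linarith
    exact h5 (hs.injOn h6 ht0 h9)
  have h10 : (s t - s t0) * d t = 0 := h4
  rcases mul_eq_zero.1 h10 with h | h
  · exact absurd h h7
  · exact h

theorem core {s d φ : ℝ → ℝ} (hs : StrictMonoOn s (Ioi 0)) (hpos : ∀ t, 0 < t → 0 < s t)
    (hd : IntegrableOn d (Ioi 0)) (hsd : IntegrableOn (fun t => s t * d t) (Ioi 0))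
    (h0 : ∫ t in Ioi (0 : ℝ), d t = 0) (h1 : ∫ t in Ioi (0 : ℝ), s t * d t = 0)
    (hP : OrdConnected {t : ℝ | 0 < t ∧ 0 < d t}) (hφ : ConvexOn ℝ (Ioi 0) φ)
    (hi : IntegrableOn (fun t => φ (s t) * d t) (Ioi 0)) :
    ∫ t in Ioi (0 : ℝ), φ (s t) * d t ≤ 0 := by
  have key : (∀ᵐ t ∂(volume.restrict (Ioi (0 : ℝ))), d t = 0) →
      ∫ t in Ioi (0 : ℝ), φ (s t) * d t ≤ 0 := by
    intro h
    have : ∫ t in Ioi (0 : ℝ), φ (s t) * d t = ∫ t in Ioi (0 : ℝ), (0 : ℝ) := by
      apply integral_congr_ae
      filter_upwards [h] with t ht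
      rw [ht, mul_zero]
    rw [this]; simp
  by_cases hne : ∃ t, 0 < t ∧ 0 < d t
  swap
  · apply key
    apply ae_zero hd h0
    filter_upwards [ae_restrict_mem measurableSet_Ioi] with t ht
    by_contra h
    exact hne ⟨t, ht, not_le.1 h⟩
  have up : ∀ t p q : ℝ, 0 < p → 0 < d p → 0 < q → 0 < d q → p ≤ t → t ≤ q → 0 < d t := by
    intro t p q hp hdp hq hdq hpt htq
    exact (hP.out ⟨hp, hdp⟩ ⟨hq, hdq⟩ ⟨hpt, htq⟩).2
  by_cases ha : ∃ a, 0 < a ∧ ∀ t, 0 < t → 0 < d t → a ≤ t
  · -- bounded away from zero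
    obtain ⟨a, ha0, ha⟩ := ha
    have hbb : BddBelow {t : ℝ | 0 < t ∧ 0 < d t} := ⟨a, fun t ht => ha t ht.1 ht.2⟩
    set t1 := sInf {t : ℝ | 0 < t ∧ 0 < d t} with ht1
    have hat1 : a ≤ t1 := le_csInf hne fun t ht => ha t ht.1 ht.2
    have ht1pos : 0 < t1 := lt_of_lt_of_le ha0 hat1
    have lo : ∀ t, 0 < t → t < t1 → d t ≤ 0 := by
      intro t ht htt
      by_contra h
      exact absurd (csInf_le hbb ⟨ht, not_le.1 h⟩) (not_le.2 htt)
    have lo2 : ∀ t, t1 < t → ∃ p, 0 < p ∧ 0 < d p ∧ p < t := by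
      intro t ht
      obtain ⟨p, hp, hpt⟩ := exists_lt_of_csInf_lt hne ht
      exact ⟨p, hp.1, hp.2, hpt⟩
    by_cases hb : ∃ b, ∀ t, 0 < t → 0 < d t → t ≤ b
    · obtain ⟨b, hb⟩ := hb
      have hba : BddAbove {t : ℝ | 0 < t ∧ 0 < d t} := ⟨b, fun t ht => hb t ht.1 ht.2⟩
      set t2 := sSup {t : ℝ | 0 < t ∧ 0 < d t} with ht2
      have h12 : t1 ≤ t2 := by
        obtain ⟨t, ht⟩ := hne
        exact (csInf_le hbb ht).trans (le_csSup hba ht)
      have hi1 : ∀ t, 0 < t → t2 < t → d t ≤ 0 := by
        intro t ht htt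
        by_contra h
        exact absurd (le_csSup hba ⟨ht, not_le.1 h⟩) (not_le.2 htt)
      have hi2 : ∀ t, t < t2 → ∃ p, 0 < p ∧ 0 < d p ∧ t < p := by
        intro t ht
        obtain ⟨p, hp, hpt⟩ := exists_lt_of_lt_csSup hne ht
        exact ⟨p, hp.1, hp.2, hpt⟩
      rcases h12.eq_or_lt with heq | hlt
      · apply key
        apply ae_zero hd h0
        filter_upwards [ae_restrict_mem measurableSet_Ioi, ae_ne t1] with t ht hne1
        rcases lt_or_gt_of_ne hne1 with h | h
        · exact lo t ht h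
        · exact hi1 t ht (by rw [← heq]; exact h)
      · -- the main case
        have mid : ∀ t, t1 < t → t < t2 → 0 < d t := by
          intro t h3 h4
          obtain ⟨p, hp, hdp, hpt⟩ := lo2 t h3
          obtain ⟨q, hq, hdq, hqt⟩ := hi2 t h4
          exact up t p q hp hdp hq hdq hpt.le hqt.le
        have ht2pos : 0 < t2 := ht1pos.trans hlt
        have hs12 : s t1 < s t2 := hs ht1pos ht2pos hlt
        have hs1 := hpos t1 ht1pos
        have e1 : (fun t => ((s t2 - s t1) * φ (s t) - (s t2 - s t) * φ (s t1) -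
            (s t - s t1) * φ (s t2)) * d t) = fun t => (s t2 - s t1) * (φ (s t) * d t) -
            (s t2 * φ (s t1) - s t1 * φ (s t2)) * d t - (φ (s t2) - φ (s t1)) * (s t * d t) := by
          funext t; ring
        have h2 : ∫ t in Ioi (0 : ℝ), ((s t2 - s t1) * φ (s t) - (s t2 - s t) * φ (s t1) -
            (s t - s t1) * φ (s t2)) * d t = (s t2 - s t1) * ∫ t in Ioi (0 : ℝ), φ (s t) * d t := by
          rw [e1, integral_sub, integral_sub (hi.const_mul _) (hd.const_mul _),
            integral_const_mul, integral_const_mul, integral_const_mul, h0, h1]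
          · ring
          · exact (hi.const_mul _).sub (hd.const_mul _)
          · exact hsd.const_mul _
        have h3 : ∫ t in Ioi (0 : ℝ), ((s t2 - s t1) * φ (s t) - (s t2 - s t) * φ (s t1) -
            (s t - s t1) * φ (s t2)) * d t ≤ 0 := by
          apply setIntegral_nonpos measurableSet_Ioi
          intro t ht
          rcases lt_trichotomy t t1 with h4 | h4 | h4
          · have h5 := hs ht ht1pos h4
            have h6 := cv hφ (hpos t ht) h5 hs12
            have h7 := lo t ht h4
            apply mul_nonpos_of_nonneg_of_nonpos _ h7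
            nlinarith [h6]
          · rw [h4]
            have : (s t2 - s t1) * φ (s t1) - (s t2 - s t1) * φ (s t1) -
              (s t1 - s t1) * φ (s t2) = 0 := by ring
            rw [this, zero_mul]
          · rcases lt_trichotomy t t2 with h5 | h5 | h5
            · have h6 := hs ht1pos ht h4
              have h7 := hs ht ht2pos h5
              have h8 := cv hφ hs1 h6 h7
              have h9 := mid t h4 h5
              apply mul_nonpos_of_nonpos_of_nonneg _ h9.le
              nlinarith [h8]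
            · rw [h5]
              have : (s t2 - s t1) * φ (s t2) - (s t2 - s t2) * φ (s t1) -
                (s t2 - s t1) * φ (s t2) = 0 := by ring
              rw [this, zero_mul]
            · have h6 := hs ht2pos ht h5
              have h7 := cv hφ hs1 hs12 h6
              have h8 := hi1 t ht h5
              apply mul_nonpos_of_nonneg_of_nonpos _ h8
              nlinarith [h7]
        rw [h2] at h3
        by_contra h
        have := mul_pos (sub_pos.2 hs12) (not_le.1 h)
        linarith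
    · -- unbounded above
      apply key
      have far : ∀ t : ℝ, ∃ p, 0 < p ∧ 0 < d p ∧ t < p := by
        intro t
        by_contra h
        apply hb
        refine ⟨t, fun p hp hdp => ?_⟩
        by_contra h2
        exact h ⟨p, hp, hdp, not_le.1 h2⟩
      apply ae_zero_up hs hd hsd h0 h1 ht1pos
      intro t ht
      rcases lt_trichotomy t t1 with h4 | h4 | h4
      · exact mul_nonneg_of_nonpos_of_nonpos (by linarith [hs ht ht1pos h4]) (lo t ht h4)
      · rw [h4]; simp
      · obtain ⟨p, hp, hdp, hpt⟩ := lo2 t h4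
        obtain ⟨q, hq, hdq, hqt⟩ := far t
        exact mul_nonneg (by linarith [hs ht1pos ht h4])
          (up t p q hp hdp hq hdq hpt.le hqt.le).le
  · -- accumulating at zero
    have near : ∀ t : ℝ, 0 < t → ∃ p, 0 < p ∧ 0 < d p ∧ p < t := by
      intro t ht
      by_contra h
      apply ha
      refine ⟨t, ht, fun p hp hdp => ?_⟩
      by_contra h2
      exact h ⟨p, hp, hdp, not_le.1 h2⟩
    by_cases hb : ∃ b, ∀ t, 0 < t → 0 < d t → t ≤ b
    · obtain ⟨b, hb⟩ := hb
      have hba : BddAbove {t : ℝ | 0 < t ∧ 0 < d t} := ⟨b, fun t ht => hb t ht.1 ht.2⟩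
      set t2 := sSup {t : ℝ | 0 < t ∧ 0 < d t} with ht2
      have ht2pos : 0 < t2 := by
        obtain ⟨t, ht⟩ := hne
        exact lt_of_lt_of_le ht.1 (le_csSup hba ht)
      have hi1 : ∀ t, 0 < t → t2 < t → d t ≤ 0 := by
        intro t ht htt
        by_contra h
        exact absurd (le_csSup hba ⟨ht, not_le.1 h⟩) (not_le.2 htt)
      have hi2 : ∀ t, t < t2 → ∃ p, 0 < p ∧ 0 < d p ∧ t < p := by
        intro t ht
        obtain ⟨p, hp, hpt⟩ := exists_lt_of_lt_csSup hne ht
        exact ⟨p, hp.1, hp.2, hpt⟩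
      apply key
      have h5 := ae_zero_up (d := fun t => -d t) hs hd.neg
        (by
          have : (fun t => s t * -d t) = fun t => -(s t * d t) := by funext t; ring
          rw [this]; exact hsd.neg)
        (by rw [integral_neg, h0, neg_zero])
        (by
          have : (fun t => s t * -d t) = fun t => -(s t * d t) := by funext t; ring
          rw [this, integral_neg, h1, neg_zero]) ht2pos
        (by
          intro t ht
          rcases lt_trichotomy t t2 with h4 | h4 | h4
          · obtain ⟨p, hp, hdp, hpt⟩ := near t ht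
            obtain ⟨q, hq, hdq, hqt⟩ := hi2 t h4
            have h6 := up t p q hp hdp hq hdq hpt.le hqt.le
            exact mul_nonneg_of_nonpos_of_nonpos (by linarith [hs ht ht2pos h4]) (by linarith)
          · rw [h4]; simp
          · have h6 := hi1 t ht h4
            exact mul_nonneg (by linarith [hs ht2pos ht h4]) (by linarith))
      filter_upwards [h5] with t ht
      linarith
    · apply key
      have far : ∀ t : ℝ, ∃ p, 0 < p ∧ 0 < d p ∧ t < p := by
        intro t
        by_contra h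
        apply hb
        refine ⟨t, fun p hp hdp => ?_⟩
        by_contra h2
        exact h ⟨p, hp, hdp, not_le.1 h2⟩
      have h5 := ae_zero (d := fun t => -d t) hd.neg (by rw [integral_neg, h0, neg_zero])
        (by
          filter_upwards [ae_restrict_mem measurableSet_Ioi] with t ht
          obtain ⟨p, hp, hdp, hpt⟩ := near t ht
          obtain ⟨q, hq, hdq, hqt⟩ := far t
          have h6 := up t p q hp hdp hq hdq hpt.le hqt.le
          linarith)
      filter_upwards [h5] with t ht
      linarith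

/-- COL. -/
theorem st_COL : Pool.Agent.Helper67.DF.ST_COL := by
  intro g φ q M hq _ hgpos hconc hgi hg1 hqi hM hφ hi1 hi2
  have hG : 0 < Real.Gamma (1 + q) := Real.Gamma_pos_of_pos (by linarith)
  have hMpos : 0 < M := by
    rw [hM]
    apply (setIntegral_pos_iff_support_of_nonneg_ae _ hqi).2
    · have hsub : Ioi (0 : ℝ) ⊆ Function.support (fun t => t ^ q * g t) ∩ Ioi 0 := by
        intro t ht
        refine ⟨?_, ht⟩
        exact (mul_pos (Real.rpow_pos_of_pos ht q) (hgpos t ht)).ne'
      refine lt_of_lt_of_le ?_ (measure_mono hsub)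
      simp
    · filter_upwards [ae_restrict_mem measurableSet_Ioi] with t ht
      exact (mul_pos (Real.rpow_pos_of_pos ht q) (hgpos t ht)).le
  obtain ⟨lam, hlam, hlamq⟩ : ∃ lam : ℝ, 0 < lam ∧ lam ^ q = Real.Gamma (1 + q) / M := by
    refine ⟨(Real.Gamma (1 + q) / M) ^ (q⁻¹), Real.rpow_pos_of_pos (div_pos hG hMpos) _, ?_⟩
    rw [← Real.rpow_mul (div_pos hG hMpos).le, inv_mul_cancel₀ hq.ne', Real.rpow_one]
  -- the exponential density
  have sub : ∀ F : ℝ → ℝ, ∫ t in Ioi (0 : ℝ), F (lam * t) * lam = ∫ t in Ioi (0 : ℝ), F t := by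
    intro F
    rw [integral_mul_const, integral_comp_mul_left_Ioi F 0 hlam, mul_zero, smul_eq_mul]
    field_simp
  have subi : ∀ F : ℝ → ℝ, IntegrableOn F (Ioi 0) →
      IntegrableOn (fun t => F (lam * t) * lam) (Ioi 0) := by
    intro F hF
    have h := (integrableOn_Ioi_comp_mul_left_iff F 0 hlam).2 (by rw [mul_zero]; exact hF)
    exact h.mul_const _
  have he1 : ∫ t in Ioi (0 : ℝ), Real.exp (-(lam * t)) * lam = 1 := by
    rw [sub (fun t => Real.exp (-t)), integral_exp_neg_Ioi_zero]
  have hei : IntegrableOn (fun t => Real.exp (-(lam * t)) * lam) (Ioi 0) :=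
    subi (fun t => Real.exp (-t)) (integrableOn_exp_neg_Ioi 0)
  have hGi : IntegrableOn (fun t : ℝ => Real.exp (-t) * t ^ q) (Ioi 0) := by
    have := Real.GammaIntegral_convergent (s := 1 + q) (by linarith)
    simpa using this
  have hGe : ∫ t in Ioi (0 : ℝ), Real.exp (-t) * t ^ q = Real.Gamma (1 + q) := by
    rw [Real.Gamma_eq_integral (by linarith)]
    simp
  -- substitution identity
  have hst : ∀ t : ℝ, 0 < t → (lam * t) ^ q / Real.Gamma (1 + q) = t ^ q / M := by
    intro t ht
    rw [Real.mul_rpow hlam.le ht.le, hlamq]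
    field_simp
  have hse : ∀ t ∈ Ioi (0 : ℝ), Real.exp (-(lam * t)) * (lam * t) ^ q / Real.Gamma (1 + q) * lam =
      t ^ q / M * (Real.exp (-(lam * t)) * lam) := by
    intro t ht
    rw [← hst t ht]; ring
  have hsei : IntegrableOn (fun t => t ^ q / M * (Real.exp (-(lam * t)) * lam)) (Ioi 0) := by
    refine IntegrableOn.congr_fun
      (subi (fun t => Real.exp (-t) * t ^ q / Real.Gamma (1 + q)) (hGi.div_const _)) ?_
      measurableSet_Ioi
    intro t ht
    exact hse t ht
  have hse1 : ∫ t in Ioi (0 : ℝ), t ^ q / M * (Real.exp (-(lam * t)) * lam) = 1 := by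
    rw [← setIntegral_congr_fun measurableSet_Ioi hse,
      sub (fun t => Real.exp (-t) * t ^ q / Real.Gamma (1 + q)), integral_div, hGe,
      div_self hG.ne']
  have hφe : ∀ t ∈ Ioi (0 : ℝ), φ ((lam * t) ^ q / Real.Gamma (1 + q)) * Real.exp (-(lam * t)) *
      lam = φ (t ^ q / M) * (Real.exp (-(lam * t)) * lam) := by
    intro t ht
    rw [hst t ht]; ring
  have hφei : IntegrableOn (fun t => φ (t ^ q / M) * (Real.exp (-(lam * t)) * lam)) (Ioi 0) := by
    refine IntegrableOn.congr_fun
      (subi (fun t => φ (t ^ q / Real.Gamma (1 + q)) * Real.exp (-t)) hi2) ?_ measurableSet_Ioi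
    intro t ht
    exact hφe t ht
  have hφe1 : ∫ t in Ioi (0 : ℝ), φ (t ^ q / M) * (Real.exp (-(lam * t)) * lam) =
      ∫ t in Ioi (0 : ℝ), φ (t ^ q / Real.Gamma (1 + q)) * Real.exp (-t) := by
    rw [← setIntegral_congr_fun measurableSet_Ioi hφe,
      sub (fun t => φ (t ^ q / Real.Gamma (1 + q)) * Real.exp (-t))]
  have hsg : IntegrableOn (fun t => t ^ q / M * g t) (Ioi 0) := by
    have : (fun t : ℝ => t ^ q / M * g t) = fun t => t ^ q * g t / M := by funext t; ring
    rw [this]; exact hqi.div_const _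
  have hsg1 : ∫ t in Ioi (0 : ℝ), t ^ q / M * g t = 1 := by
    have : (fun t : ℝ => t ^ q / M * g t) = fun t => t ^ q * g t / M := by funext t; ring
    rw [this, integral_div, ← hM, div_self hMpos.ne']
  have hmain := core (s := fun t => t ^ q / M) (d := fun t => g t - Real.exp (-(lam * t)) * lam)
    (φ := φ) ?_ ?_ (hgi.sub hei) ?_ ?_ ?_ ?_ hφ ?_
  · have e2 : (fun t => φ (t ^ q / M) * (g t - Real.exp (-(lam * t)) * lam)) =
        fun t => φ (t ^ q / M) * g t - φ (t ^ q / M) * (Real.exp (-(lam * t)) * lam) := by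
      funext t; ring
    have h3 : ∫ t in Ioi (0 : ℝ), φ (t ^ q / M) * (g t - Real.exp (-(lam * t)) * lam) ≤ 0 := hmain
    rw [e2, integral_sub hi1 hφei, hφe1] at h3
    linarith
  · intro x hx y hy hxy
    have h4 : x ^ q < y ^ q := Real.rpow_lt_rpow (le_of_lt hx) hxy hq
    exact div_lt_div_of_pos_right h4 hMpos
  · intro t ht
    exact div_pos (Real.rpow_pos_of_pos ht q) hMpos
  · have e2 : (fun t => t ^ q / M * (g t - Real.exp (-(lam * t)) * lam)) =
        fun t => t ^ q / M * g t - t ^ q / M * (Real.exp (-(lam * t)) * lam) := by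
      funext t; ring
    show IntegrableOn (fun t => t ^ q / M * (g t - Real.exp (-(lam * t)) * lam)) (Ioi 0)
    rw [e2]; exact hsg.sub hsei
  · show ∫ t in Ioi (0 : ℝ), (g t - Real.exp (-(lam * t)) * lam) = 0
    rw [integral_sub hgi hei, hg1, he1, sub_self]
  · have e2 : (fun t => t ^ q / M * (g t - Real.exp (-(lam * t)) * lam)) =
        fun t => t ^ q / M * g t - t ^ q / M * (Real.exp (-(lam * t)) * lam) := by
      funext t; ring
    show ∫ t in Ioi (0 : ℝ), t ^ q / M * (g t - Real.exp (-(lam * t)) * lam) = 0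
    rw [e2, integral_sub hsg hsei, hsg1, hse1, sub_self]
  · -- order connectedness
    have hlin : ConcaveOn ℝ (Ioi (0 : ℝ)) fun t => Real.log (g t) + (lam * t - Real.log lam) := by
      apply hconc.add
      refine ⟨convex_Ioi 0, ?_⟩
      intro x _ y _ a b _ _ hab
      have : a • (lam * x - Real.log lam) + b • (lam * y - Real.log lam) =
        lam * (a • x + b • y) - (a + b) * Real.log lam := by
        simp only [smul_eq_mul]; ring
      rw [this, hab, one_mul]
    have hcx := hlin.convex_gt 0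
    have hset : {t : ℝ | 0 < t ∧ 0 < g t - Real.exp (-(lam * t)) * lam} =
        {x | x ∈ Ioi (0 : ℝ) ∧ 0 < Real.log (g x) + (lam * x - Real.log lam)} := by
      ext t
      simp only [mem_setOf_eq, mem_Ioi]
      refine and_congr_right fun ht => ?_
      have hgt := hgpos t ht
      have e3 : Real.exp (-(lam * t)) * lam = Real.exp (Real.log lam - lam * t) := by
        rw [Real.exp_sub, Real.exp_log hlam, Real.exp_neg]; field_simp
      rw [e3, sub_pos, ← Real.lt_log_iff_exp_lt hgt]
      constructor <;> intro h <;> linarith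
    rw [hset]
    exact hcx.ordConnected
  · have e2 : (fun t => φ (t ^ q / M) * (g t - Real.exp (-(lam * t)) * lam)) =
        fun t => φ (t ^ q / M) * g t - φ (t ^ q / M) * (Real.exp (-(lam * t)) * lam) := by
      funext t; ring
    show IntegrableOn (fun t => φ (t ^ q / M) * (g t - Real.exp (-(lam * t)) * lam)) (Ioi 0)
    rw [e2]; exact hi1.sub hφei

end Pool.Agent.Helper55.DF
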