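import Pool.Agent.Helper67.DF.Stmts

/-!
Project DF (MP_10bc19_gt): the row GAQ, the value for Gaussian measures.
-/

open Finset

namespace Pool.Agent.Helper55.DF

open Pool.Agent.Helper67.BT (E Sp)
open Pool.Agent.Helper67.DF

/-- the computation in coordinates -/
lemma core_gaq {n k : ℕ} (α ν : Fin n → Fin k → ℝ) (G : Fin k → Fin k → ℝ) (h : Fin k → ℝ)
    (s v ω : Fin n → ℝ) (hω : ∀ l, 0 < ω l)
    (hh : ∀ i, 0 < h i) (Gs : ∀ i j, G i j = G j i)
    (Gd : ∀ i j, G i j = ∑ l, s l * v l * α l i * α l j)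
    (hs : ∀ i j, ∑ l, s l * α l i * α l j = if i = j then 1 else 0)
    (ho : ∀ i j, ∑ l, ω l * α l i * α l j = if i = j then h i else 0)
    (hν : ∀ l i, ν l i = v l * α l i - ∑ j, G i j * α l j)
    (bq : ∀ β : Fin n → ℝ, ∑ j, (∑ l, β l * α l j) ^ 2 / h j ≤ ∑ l, β l ^ 2 / ω l) :
    ∑ l, (ω l - 2 * ((ω l - s l) ^ 2 / ω l)) * ∑ i, ν l i ^ 2 / h i ≤
      ∑ l, ω l * ∑ i, α l i * (v l * ν l i - ∑ j, G i j * ν l j) / h i := by
  classical
  set P : Fin k → Fin k → ℝ := fun i j => ∑ l, ω l * ν l i * α l j with hPdef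
  -- the weighted sums against any weight
  have key : ∀ (w : Fin n → ℝ) (i j : Fin k), ∑ l, w l * ν l i * α l j =
      (∑ l, w l * v l * α l i * α l j) - ∑ m, G i m * ∑ l, w l * α l m * α l j := by
    intro w i j
    have e1 : ∑ m, G i m * ∑ l, w l * α l m * α l j =
        ∑ l, w l * (∑ m, G i m * α l m) * α l j := by
      simp only [Finset.mul_sum, Finset.sum_mul]
      rw [Finset.sum_comm]
      refine Finset.sum_congr rfl fun l _ => Finset.sum_congr rfl fun m _ => ?_
      ring
    rw [e1, ← Finset.sum_sub_distrib]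
    refine Finset.sum_congr rfl fun l _ => ?_
    rw [hν l i]
    ring
  have hsz : ∀ i j, ∑ l, s l * ν l i * α l j = 0 := by
    intro i j
    rw [key s i j, ← Gd i j]
    simp only [hs]
    simp
  have hP1 : ∀ i j, P i j = (∑ l, ω l * v l * α l i * α l j) - G i j * h j := by
    intro i j
    simp only [hPdef]
    rw [key ω i j]
    simp only [ho]
    simp
  have hP2 : ∀ i j, P i j = ∑ l, ((ω l - s l) * ν l i) * α l j := by
    intro i j
    have e2 : ∑ l, ((ω l - s l) * ν l i) * α l j = P i j - ∑ l, s l * ν l i * α l j := by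
      simp only [hPdef]
      rw [← Finset.sum_sub_distrib]
      refine Finset.sum_congr rfl fun l _ => ?_
      ring
    rw [e2, hsz i j, sub_zero]
  have hanti : ∀ i j, P i j - P j i = G i j * (h i - h j) := by
    intro i j
    have e3 : ∑ l, ω l * v l * α l i * α l j = ∑ l, ω l * v l * α l j * α l i :=
      Finset.sum_congr rfl fun l _ => by ring
    rw [hP1 i j, hP1 j i, e3, Gs j i]
    ring
  -- the right hand side
  have S1 : ∑ l, ω l * ∑ i, α l i * (v l * ν l i - ∑ j, G i j * ν l j) / h i =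
      ∑ l, ω l * ∑ i, ν l i ^ 2 / h i + ∑ i, ∑ j, G i j * (P i j - P j i) / h i := by
    have e4 : ∀ l, ω l * ∑ i, α l i * (v l * ν l i - ∑ j, G i j * ν l j) / h i =
        ω l * ∑ i, ν l i ^ 2 / h i + ∑ i, ∑ j, G i j * (ω l * ν l i * α l j -
          ω l * ν l j * α l i) / h i := by
      intro l
      rw [Finset.mul_sum, Finset.mul_sum, ← Finset.sum_add_distrib]
      refine Finset.sum_congr rfl fun i _ => ?_
      have e5 : ∑ j, G i j * (ω l * ν l i * α l j - ω l * ν l j * α l i) / h i =
          (ω l * ν l i * (∑ j, G i j * α l j) - ω l * α l i * ∑ j, G i j * ν l j) / h i := by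
        rw [Finset.mul_sum, Finset.mul_sum, ← Finset.sum_sub_distrib, Finset.sum_div]
        refine Finset.sum_congr rfl fun j _ => ?_
        ring
      have e6 : ∑ j, G i j * α l j = v l * α l i - ν l i := by
        rw [hν l i]; ring
      rw [e5, e6]
      ring
    rw [Finset.sum_congr rfl fun l _ => e4 l, Finset.sum_add_distrib]
    congr 1
    rw [Finset.sum_comm]
    refine Finset.sum_congr rfl fun i _ => ?_
    rw [Finset.sum_comm]
    refine Finset.sum_congr rfl fun j _ => ?_
    simp only [hPdef]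
    rw [← Finset.sum_sub_distrib, Finset.mul_sum, Finset.sum_div]
  -- symmetrization
  have S2 : ∑ i, ∑ j, G i j * (P i j - P j i) / h i =
      -(1 / 2 * ∑ i, ∑ j, (P i j - P j i) ^ 2 / (h i * h j)) := by
    have e7 : ∑ i, ∑ j, G i j * (P i j - P j i) / h i =
        ∑ i, ∑ j, G i j * (P j i - P i j) / h j := by
      rw [Finset.sum_comm]
      refine Finset.sum_congr rfl fun i _ => Finset.sum_congr rfl fun j _ => ?_
      rw [Gs i j]
    have e8 : ∑ i, ∑ j, G i j * (P i j - P j i) / h i + ∑ i, ∑ j, G i j * (P j i - P i j) / h j =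
        -∑ i, ∑ j, (P i j - P j i) ^ 2 / (h i * h j) := by
      rw [← Finset.sum_add_distrib, ← Finset.sum_neg_distrib]
      refine Finset.sum_congr rfl fun i _ => ?_
      rw [← Finset.sum_add_distrib, ← Finset.sum_neg_distrib]
      refine Finset.sum_congr rfl fun j _ => ?_
      have a1 := (hh i).ne'
      have a2 := (hh j).ne'
      have a3 : P j i - P i j = -(G i j * (h i - h j)) := by rw [← hanti i j]; ring
      rw [a3, hanti i j]
      field_simp
      ring
    linarith
  -- the bound
  have S3 : 1 / 2 * ∑ i, ∑ j, (P i j - P j i) ^ 2 / (h i * h j) ≤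
      2 * ∑ i, ∑ j, P i j ^ 2 / (h i * h j) := by
    have e9 : ∑ i, ∑ j, (P i j - P j i) ^ 2 / (h i * h j) ≤
        ∑ i, ∑ j, (2 * (P i j ^ 2 / (h i * h j)) + 2 * (P j i ^ 2 / (h j * h i))) := by
      refine Finset.sum_le_sum fun i _ => Finset.sum_le_sum fun j _ => ?_
      have hpos : 0 < h i * h j := mul_pos (hh i) (hh j)
      rw [mul_comm (h j) (h i), ← mul_add, ← add_div, ← mul_div_assoc]
      refine div_le_div_of_nonneg_right ?_ hpos.le
      nlinarith [sq_nonneg (P i j + P j i)]
    have e10 : ∑ i, ∑ j, (2 * (P i j ^ 2 / (h i * h j)) + 2 * (P j i ^ 2 / (h j * h i))) =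
        4 * ∑ i, ∑ j, P i j ^ 2 / (h i * h j) := by
      have e11 : ∑ i, ∑ j, P j i ^ 2 / (h j * h i) = ∑ i, ∑ j, P i j ^ 2 / (h i * h j) :=
        Finset.sum_comm
      have e12 : ∑ i, ∑ j, (2 * (P i j ^ 2 / (h i * h j)) + 2 * (P j i ^ 2 / (h j * h i))) =
          2 * ∑ i, ∑ j, P i j ^ 2 / (h i * h j) + 2 * ∑ i, ∑ j, P j i ^ 2 / (h j * h i) := by
        simp only [Finset.mul_sum, Finset.sum_add_distrib]
      rw [e12, e11]
      ring
    linarith
  have S4 : ∑ i, ∑ j, P i j ^ 2 / (h i * h j) ≤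
      ∑ l, (ω l - s l) ^ 2 / ω l * ∑ i, ν l i ^ 2 / h i := by
    have e13 : ∀ i, ∑ j, P i j ^ 2 / (h i * h j) ≤
        ∑ l, (ω l - s l) ^ 2 / ω l * (ν l i ^ 2 / h i) := by
      intro i
      have b := bq fun l => (ω l - s l) * ν l i
      have e14 : ∑ j, P i j ^ 2 / (h i * h j) =
          (∑ j, (∑ l, ((ω l - s l) * ν l i) * α l j) ^ 2 / h j) / h i := by
        rw [Finset.sum_div]
        refine Finset.sum_congr rfl fun j _ => ?_
        rw [hP2 i j, div_div, mul_comm (h i) (h j)]
      have e15 : ∑ l, (ω l - s l) ^ 2 / ω l * (ν l i ^ 2 / h i) =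
          (∑ l, ((ω l - s l) * ν l i) ^ 2 / ω l) / h i := by
        rw [Finset.sum_div]
        refine Finset.sum_congr rfl fun l _ => ?_
        have a1 := (hh i).ne'
        have a2 := (hω l).ne'
        field_simp
      rw [e14, e15]
      exact div_le_div_of_nonneg_right b (hh i).le
    refine (Finset.sum_le_sum fun i _ => e13 i).trans (le_of_eq ?_)
    rw [Finset.sum_comm]
    refine Finset.sum_congr rfl fun l _ => ?_
    rw [Finset.mul_sum]
  have S5 : ∑ l, (ω l - 2 * ((ω l - s l) ^ 2 / ω l)) * ∑ i, ν l i ^ 2 / h i =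
      ∑ l, ω l * ∑ i, ν l i ^ 2 / h i -
        2 * ∑ l, (ω l - s l) ^ 2 / ω l * ∑ i, ν l i ^ 2 / h i := by
    rw [Finset.mul_sum, ← Finset.sum_sub_distrib]
    refine Finset.sum_congr rfl fun l _ => ?_
    ring
  rw [S1, S2, S5]
  linarith

theorem st_GAQ (hBQ : ST_BQ) : ST_GAQ := by
  classical
  intro n k s v ω a X hs hiso hω hX
  -- the operator
  set H : E k →ₗ[ℝ] E k := ∑ l, (ω l) • ((innerₛₗ ℝ (a l)).smulRight (a l)) with hH
  have Hy : ∀ y, H y = ∑ l, (ω l * inner ℝ (a l) y) • a l := by
    intro y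
    simp [hH, LinearMap.sum_apply, smul_smul]
  have Ay : ∀ y, AA s v a y = ∑ l, (s l * v l * inner ℝ (a l) y) • a l := by
    intro y
    simp [AA, LinearMap.sum_apply, smul_smul]
  have Hin : ∀ x y, inner ℝ (H x) y = ∑ l, ω l * inner ℝ (a l) x * inner ℝ (a l) y := by
    intro x y
    rw [Hy, sum_inner]
    refine Finset.sum_congr rfl fun l _ => ?_
    rw [real_inner_smul_left]
  have Hsym : H.IsSymmetric := by
    intro x y
    rw [Hin x y, real_inner_comm, Hin y x]
    refine Finset.sum_congr rfl fun l _ => ?_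
    ring
  have hXH : ∀ y, X (H y) = y := by
    intro y
    rw [Hy y]
    exact hX y
  have hn : Module.finrank ℝ (E k) = k := by simp
  set f := Hsym.eigenvectorBasis hn with hf
  set h : Fin k → ℝ := Hsym.eigenvalues hn with hhdef
  have Hf : ∀ i, H (f i) = h i • f i := by
    intro i
    exact Hsym.apply_eigenvectorBasis hn i
  have fo : ∀ i j, inner ℝ (f i) (f j) = if i = j then (1 : ℝ) else 0 := by
    intro i j
    exact orthonormal_iff_ite.mp f.orthonormal i j
  have hh0 : ∀ i, 0 < h i := by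
    intro i
    have e1 : inner ℝ (H (f i)) (f i) = h i := by
      rw [Hf i, real_inner_smul_left, fo i i]
      simp
    have e2 : 0 ≤ h i := by
      rw [← e1, Hin]
      refine Finset.sum_nonneg fun l _ => ?_
      have : ω l * inner ℝ (a l) (f i) * inner ℝ (a l) (f i) =
        ω l * (inner ℝ (a l) (f i)) ^ 2 := by ring
      rw [this]
      exact mul_nonneg (hω l).le (sq_nonneg _)
    rcases e2.lt_or_eq with h1 | h1
    · exact h1
    · exfalso
      have e3 : f i = 0 := by
        rw [← hXH (f i), Hf i, ← h1]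
        simp
      have e4 := fo i i
      rw [e3] at e4
      simp at e4
  have Xf : ∀ i, X (f i) = (h i)⁻¹ • f i := by
    intro i
    have e1 := hXH (f i)
    rw [Hf i, map_smul] at e1
    calc X (f i) = (h i)⁻¹ • (h i • X (f i)) := by
          rw [smul_smul, inv_mul_cancel₀ (hh0 i).ne', one_smul]
      _ = (h i)⁻¹ • f i := by rw [e1]
  have Xin : ∀ u w : E k, inner ℝ (X u) w =
      ∑ i, inner ℝ (f i) u * inner ℝ (f i) w / h i := by
    intro u w
    conv_lhs => rw [← f.sum_repr' u]
    rw [map_sum, sum_inner]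
    refine Finset.sum_congr rfl fun i _ => ?_
    rw [map_smul, Xf i, real_inner_smul_left, real_inner_smul_left]
    ring
  -- coordinates
  have Ain : ∀ x y, inner ℝ x (AA s v a y) =
      ∑ l, s l * v l * inner ℝ (a l) x * inner ℝ (a l) y := by
    intro x y
    rw [Ay, inner_sum]
    refine Finset.sum_congr rfl fun l _ => ?_
    rw [real_inner_smul_right, real_inner_comm (a l) x]
    ring
  have Aco : ∀ (i : Fin k) (y : E k), inner ℝ (f i) (AA s v a y) =
      ∑ j, inner ℝ (f i) (AA s v a (f j)) * inner ℝ (f j) y := by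
    intro i y
    conv_lhs => rw [← f.sum_repr' y]
    rw [map_sum, inner_sum]
    refine Finset.sum_congr rfl fun j _ => ?_
    rw [map_smul, real_inner_smul_right]
    ring
  have C := core_gaq (fun l i => inner ℝ (f i) (a l)) (fun l i => inner ℝ (f i) (nv s v a l))
    (fun i j => inner ℝ (f i) (AA s v a (f j))) h s v ω hω hh0
    (by
      intro i j
      rw [Ain, Ain]
      refine Finset.sum_congr rfl fun l _ => ?_
      ring)
    (by
      intro i j
      rw [Ain]
      refine Finset.sum_congr rfl fun l _ => ?_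
      rw [real_inner_comm (a l) (f i), real_inner_comm (a l) (f j)])
    (by
      intro i j
      rw [← fo i j, ← hiso (f i) (f j)]
      refine Finset.sum_congr rfl fun l _ => ?_
      rw [real_inner_comm (a l) (f i), real_inner_comm (a l) (f j)])
    (by
      intro i j
      have e1 : inner ℝ (H (f i)) (f j) = if i = j then h i else 0 := by
        rw [Hf i, real_inner_smul_left, fo i j]
        split_ifs <;> simp
      rw [← e1, Hin]
      refine Finset.sum_congr rfl fun l _ => ?_
      rw [real_inner_comm (a l) (f i), real_inner_comm (a l) (f j)])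
    (by
      intro l i
      rw [← Aco i (a l)]
      simp only [nv]
      rw [inner_sub_right, real_inner_smul_right])
    (by
      intro β
      have b := hBQ n k a ω β X hω hX
      rw [Xin] at b
      refine le_trans (le_of_eq ?_) b
      refine Finset.sum_congr rfl fun j _ => ?_
      have e1 : inner ℝ (f j) (∑ l, β l • a l) = ∑ l, β l * inner ℝ (f j) (a l) := by
        rw [inner_sum]
        refine Finset.sum_congr rfl fun l _ => ?_
        rw [real_inner_smul_right]
      rw [e1, sq])
  have L : ∑ l, (ω l - 2 * ((ω l - s l) ^ 2 / ω l)) * inner ℝ (X (nv s v a l)) (nv s v a l) =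
      ∑ l, (ω l - 2 * ((ω l - s l) ^ 2 / ω l)) *
        ∑ i, inner ℝ (f i) (nv s v a l) ^ 2 / h i := by
    refine Finset.sum_congr rfl fun l _ => ?_
    rw [Xin]
    congr 1
    refine Finset.sum_congr rfl fun i _ => ?_
    rw [sq]
  have R : ∑ l, ω l * inner ℝ (X (a l)) (mv s v a l) =
      ∑ l, ω l * ∑ i, inner ℝ (f i) (a l) * (v l * inner ℝ (f i) (nv s v a l) -
        ∑ j, inner ℝ (f i) (AA s v a (f j)) * inner ℝ (f j) (nv s v a l)) / h i := by
    refine Finset.sum_congr rfl fun l _ => ?_
    rw [Xin]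
    congr 1
    refine Finset.sum_congr rfl fun i _ => ?_
    have e1 : inner ℝ (f i) (mv s v a l) = v l * inner ℝ (f i) (nv s v a l) -
        ∑ j, inner ℝ (f i) (AA s v a (f j)) * inner ℝ (f j) (nv s v a l) := by
      rw [← Aco i (nv s v a l)]
      simp only [mv]
      rw [inner_sub_right, real_inner_smul_right]
    rw [e1]
  rw [L, R]
  exact C

end Pool.Agent.Helper55.DF
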